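import Mathlib
import Pool.Agent.H24.AssocNil

set_option autoImplicit false
open Pool.Agent.H24.Alg

namespace Pool.Agent.Results.MP_3d7de8_lc.Solvable

universe u v

theorem result (K : Type u) [Field K] (n r : ℕ)
    (A : Type v) [NonUnitalRing A] [Module K A] [IsScalarTower K A A] [SMulCommClass K A A]
    (x : Fin r → A) (hA : der K A n = ⊥)
    (hfree : ∀ (B : Type v) [NonUnitalRing B] [Module K B] [IsScalarTower K B B]
      [SMulCommClass K B B], der K B n = ⊥ → ∀ y : Fin r → B,
      ∃! φ : A →ₙₐ[K] B, ∀ i, φ (x i) = y i)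
    (m : ℕ) (a b : Fin m → A) (hab : TypeEq K (· * ·) (· * ·) a b) :
    ∃ σ : A ≃ₗ[K] A, (∀ p q, σ (p * q) = σ p * σ q) ∧ ∀ i, σ (a i) = b i :=
  homog (LinearMap.mul K A) assoc_H (pw_of_nil Nat.one_le_two_pow (nil_of_der hA)) x
    (gen_of_free x (fun S y => (hfree S (by
      refine le_bot_iff.1 fun z hz => ?_
      have := der_sub S n z hz
      rw [hA] at this
      exact Subtype.ext this) y).exists) (hfree A hA x))
    (ext_of_free x fun y => (hfree A hA y).exists) a b hab

end Pool.Agent.Results.MP_3d7de8_lc.Solvable
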